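import Pool.Agent.Q293.WFPP.Defs

namespace Pool.Agent.Q293.WFPP

open MeasureTheory ProbabilityTheory Filter
open scoped ENNReal Pointwise RealInnerProductSpace

variable {d : ℕ}

theorem wt_smul (α : ℝ) (f₀ : Pt d → ℝ) {r : ℝ} (hr : 0 < r) (x : Pt d) :
    wt α f₀ (r • x) = r ^ α * wt α f₀ x := by
  unfold wt
  have h1 : ‖r • x‖ = r * ‖x‖ := by rw [norm_smul, Real.norm_of_nonneg hr.le]
  rw [h1, Real.mul_rpow hr.le (norm_nonneg _), smul_smul]
  have h2 : (r * ‖x‖)⁻¹ * r = ‖x‖⁻¹ := by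
    rw [mul_inv]; field_simp
  rw [h2]; ring

theorem segLen_smul (A : Set (Pt d)) (α : ℝ) (f₀ : Pt d → ℝ) {r : ℝ} (hr : 0 < r)
    (z w : Pt d) :
    segLen A (wt α f₀) (r • z) (r • w) =
      ENNReal.ofReal (r ^ (1 - α)) * segLen A (wt α f₀) z w := by
  unfold segLen
  have h1 : r • w - r • z = r • (w - z) := by rw [smul_sub]
  have h2 : gauge A (r • (w - z)) = r * gauge A (w - z) := by
    rw [gauge_smul_of_nonneg hr.le]; rfl
  have h3 : ∀ s : ℝ, ENNReal.ofReal ((wt α f₀ (r • z + s • (r • w - r • z)))⁻¹) =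
      ENNReal.ofReal (r ^ (-α)) * ENNReal.ofReal ((wt α f₀ (z + s • (w - z)))⁻¹) := by
    intro s
    have : r • z + s • (r • w - r • z) = r • (z + s • (w - z)) := by
      rw [h1, smul_add, smul_comm]
    rw [this, wt_smul α f₀ hr, mul_inv, ENNReal.ofReal_mul (inv_nonneg.mpr (Real.rpow_nonneg hr.le _)),
      Real.rpow_neg hr.le]
  simp_rw [h3]
  rw [lintegral_const_mul' _ _ ENNReal.ofReal_ne_top, h1, h2, ENNReal.ofReal_mul hr.le]
  have h4 : ENNReal.ofReal r * ENNReal.ofReal (r ^ (-α)) = ENNReal.ofReal (r ^ (1 - α)) := by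
    rw [← ENNReal.ofReal_mul hr.le]
    congr 1
    rw [show (1 - α) = 1 + (-α) by ring, Real.rpow_add hr, Real.rpow_one]
  rw [← h4]; ring

theorem polyLen_smul (A : Set (Pt d)) (α : ℝ) (f₀ : Pt d → ℝ) {r : ℝ} (hr : 0 < r) :
    ∀ l : List (Pt d), polyLen A (wt α f₀) (l.map (fun z => r • z)) =
      ENNReal.ofReal (r ^ (1 - α)) * polyLen A (wt α f₀) l
  | [] => by simp [polyLen]
  | [_] => by simp [polyLen]
  | z :: w :: l => by
    have h := polyLen_smul A α f₀ hr (w :: l)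
    simp only [List.map_cons] at h ⊢
    show segLen A (wt α f₀) (r • z) (r • w) + polyLen A (wt α f₀) (r • w :: _) =
      ENNReal.ofReal (r ^ (1 - α)) * (segLen A (wt α f₀) z w + polyLen A (wt α f₀) (w :: l))
    rw [h, segLen_smul A α f₀ hr, mul_add]

theorem D_smul_le (A : Set (Pt d)) (α : ℝ) (f₀ : Pt d → ℝ) {r : ℝ} (hr : 0 < r)
    (x : Pt d) :
    D A (wt α f₀) 0 (r • x) ≤ ENNReal.ofReal (r ^ (1 - α)) * D A (wt α f₀) 0 x := by
  unfold D
  rw [ENNReal.mul_iInf_of_ne (by simpa using Real.rpow_pos_of_pos hr _) ENNReal.ofReal_ne_top]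
  refine le_iInf fun l => ?_
  have hl : (l.1.map (fun z => r • z)).head? = some (0 : Pt d) ∧
      (l.1.map (fun z => r • z)).getLast? = some (r • x) := by
    rw [List.head?_map, List.getLast?_map, l.2.1, l.2.2]
    simp
  refine (iInf_le _ ⟨l.1.map (fun z => r • z), hl⟩).trans ?_
  rw [polyLen_smul A α f₀ hr]

theorem D_smul (A : Set (Pt d)) (α : ℝ) (f₀ : Pt d → ℝ) {r : ℝ} (hr : 0 < r)
    (x : Pt d) :
    D A (wt α f₀) 0 (r • x) = ENNReal.ofReal (r ^ (1 - α)) * D A (wt α f₀) 0 x := by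
  refine le_antisymm (D_smul_le A α f₀ hr x) ?_
  have h := D_smul_le A α f₀ (inv_pos.mpr hr) (r • x)
  rw [smul_smul, inv_mul_cancel₀ hr.ne', one_smul] at h
  calc ENNReal.ofReal (r ^ (1 - α)) * D A (wt α f₀) 0 x
      ≤ ENNReal.ofReal (r ^ (1 - α)) *
        (ENNReal.ofReal (r⁻¹ ^ (1 - α)) * D A (wt α f₀) 0 (r • x)) := by gcongr
    _ = D A (wt α f₀) 0 (r • x) := by
        rw [← mul_assoc, ← ENNReal.ofReal_mul (Real.rpow_nonneg hr.le _),
          Real.inv_rpow hr.le, mul_inv_cancel₀ (Real.rpow_pos_of_pos hr _).ne',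
          ENNReal.ofReal_one, one_mul]

/-- the smooth potential -/
noncomputable def Phi (x : Pt d) : ℝ := ‖x‖ ^ 2 / (1 + ‖x‖ ^ 2)

theorem rpow_bound {α : ℝ} (h0 : 0 < α) (h1 : α < 1) {x : ℝ} (hx : 0 ≤ x) :
    x ^ (1 + α) ≤ 1 + x ^ 2 := by
  rcases le_total x 1 with h | h
  · have := Real.rpow_le_one hx h (by linarith : (0 : ℝ) ≤ 1 + α)
    nlinarith [sq_nonneg x]
  · have := Real.rpow_le_rpow_of_exponent_le h (by linarith : 1 + α ≤ 2)
    rw [Real.rpow_two] at this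
    linarith

theorem pointwise_bound {α : ℝ} (h0 : 0 < α) (h1 : α < 1) {f₀ : Pt d → ℝ} {M : ℝ}
    (hM : 0 < M)
    (hf : ∀ z ∈ Metric.sphere (0 : Pt d) 1, 0 < f₀ z ∧ f₀ z ≤ M) (x : Pt d) :
    2 * ‖x‖ / (1 + ‖x‖ ^ 2) ^ 2 ≤ 2 * M * (wt α f₀ x)⁻¹ := by
  by_cases hx : x = 0
  · subst hx
    have h00 : wt α f₀ (0 : Pt d) = 0 := by
      unfold wt; rw [norm_zero, Real.zero_rpow h0.ne', zero_mul]
    rw [h00]; simp
  · have hn : 0 < ‖x‖ := norm_pos_iff.mpr hx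
    have hs : ‖x‖⁻¹ • x ∈ Metric.sphere (0 : Pt d) 1 := by
      rw [mem_sphere_zero_iff_norm, norm_smul, norm_inv, norm_norm, inv_mul_cancel₀ hn.ne']
    obtain ⟨h2, h3⟩ := hf _ hs
    have h4 : 0 < ‖x‖ ^ α := Real.rpow_pos_of_pos hn _
    have h5 : (‖x‖ ^ α * M)⁻¹ ≤ (wt α f₀ x)⁻¹ := by
      unfold wt
      exact inv_anti₀ (mul_pos h4 h2) (mul_le_mul_of_nonneg_left h3 h4.le)
    have h6 : 2 * ‖x‖ / (1 + ‖x‖ ^ 2) ^ 2 ≤ 2 * M * (‖x‖ ^ α * M)⁻¹ := by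
      have h7 : 2 * M * (‖x‖ ^ α * M)⁻¹ = 2 / ‖x‖ ^ α := by field_simp
      rw [h7, div_le_div_iff₀ (by positivity) h4]
      have h8 := rpow_bound h0 h1 hn.le
      have h9 : ‖x‖ * ‖x‖ ^ α = ‖x‖ ^ (1 + α) := by
        rw [Real.rpow_add hn, Real.rpow_one]
      have h10 : (1 : ℝ) + ‖x‖ ^ 2 ≤ (1 + ‖x‖ ^ 2) ^ 2 := by nlinarith [sq_nonneg ‖x‖]
      nlinarith
    refine h6.trans ?_
    gcongr

theorem hasDerivAt_Phi (z u : Pt d) (s : ℝ) :
    HasDerivAt (fun s : ℝ => Phi (z + s • u))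
      (2 * ⟪z + s • u, u⟫ / (1 + ‖z + s • u‖ ^ 2) ^ 2) s := by
  have h1 : HasDerivAt (fun s : ℝ => z + s • u) u s := by
    simpa using ((hasDerivAt_id s).smul_const u).const_add z
  have h2 : HasDerivAt (fun s : ℝ => ‖z + s • u‖ ^ 2) (2 * ⟪z + s • u, u⟫) s := h1.norm_sq
  have h3 : (1 : ℝ) + ‖z + s • u‖ ^ 2 ≠ 0 := by positivity
  have h4 := h2.fun_div (h2.const_add 1) h3
  unfold Phi
  refine h4.congr_deriv ?_
  congr 1
  ring

theorem continuous_deriv_Phi (z u : Pt d) :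
    Continuous (fun s : ℝ => 2 * ⟪z + s • u, u⟫ / (1 + ‖z + s • u‖ ^ 2) ^ 2) := by
  have h1 : Continuous (fun s : ℝ => z + s • u) := by fun_prop
  refine Continuous.div (continuous_const.mul (h1.inner continuous_const)) (by fun_prop) ?_
  intro s; positivity

theorem seg_lower {A : Set (Pt d)} {R : ℝ} (hR : 0 < R)
    (hA : ∀ u : Pt d, ‖u‖ ≤ R * gauge A u)
    {α : ℝ} (h0 : 0 < α) (h1 : α < 1) {f₀ : Pt d → ℝ} {M : ℝ} (hM : 0 < M)
    (hf : ∀ z ∈ Metric.sphere (0 : Pt d) 1, 0 < f₀ z ∧ f₀ z ≤ M) (z w : Pt d) :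
    ENNReal.ofReal |Phi w - Phi z| ≤ ENNReal.ofReal (2 * R * M) * segLen A (wt α f₀) z w := by
  set u := w - z with hu
  set g' : ℝ → ℝ := fun s => 2 * ⟪z + s • u, u⟫ / (1 + ‖z + s • u‖ ^ 2) ^ 2 with hg'
  have hint : ∫ s in (0 : ℝ)..1, g' s = Phi w - Phi z := by
    rw [intervalIntegral.integral_eq_sub_of_hasDerivAt (f := fun s : ℝ => Phi (z + s • u))
      (fun s _ => hasDerivAt_Phi z u s) ((continuous_deriv_Phi z u).intervalIntegrable _ _)]
    simp [hu]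
  have hb : ∀ s : ℝ, |g' s| ≤ (2 * R * M * gauge A u) * (wt α f₀ (z + s • u))⁻¹ := by
    intro s
    have h2 := pointwise_bound h0 h1 hM hf (z + s • u)
    have h3 : |⟪z + s • u, u⟫| ≤ ‖z + s • u‖ * ‖u‖ := abs_real_inner_le_norm _ _
    have h4 : 0 ≤ (wt α f₀ (z + s • u))⁻¹ := by
      have : 0 ≤ 2 * ‖z + s • u‖ / (1 + ‖z + s • u‖ ^ 2) ^ 2 := by positivity
      by_contra hneg
      push Not at hneg
      have := mul_neg_of_pos_of_neg (by positivity : (0 : ℝ) < 2 * M) hneg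
      linarith
    rw [hg']
    simp only
    rw [abs_div, abs_mul, abs_of_pos (by positivity : (0 : ℝ) < (1 + ‖z + s • u‖ ^ 2) ^ 2),
      abs_two]
    calc 2 * |⟪z + s • u, u⟫| / (1 + ‖z + s • u‖ ^ 2) ^ 2
        ≤ 2 * (‖z + s • u‖ * ‖u‖) / (1 + ‖z + s • u‖ ^ 2) ^ 2 := by gcongr
      _ = ‖u‖ * (2 * ‖z + s • u‖ / (1 + ‖z + s • u‖ ^ 2) ^ 2) := by ring
      _ ≤ ‖u‖ * (2 * M * (wt α f₀ (z + s • u))⁻¹) := by gcongr
      _ ≤ (R * gauge A u) * (2 * M * (wt α f₀ (z + s • u))⁻¹) := by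
          gcongr
          exact hA u
      _ = (2 * R * M * gauge A u) * (wt α f₀ (z + s • u))⁻¹ := by ring
  have h5 : ENNReal.ofReal |Phi w - Phi z| ≤ ∫⁻ s in Set.Icc (0 : ℝ) 1, ENNReal.ofReal |g' s| := by
    rw [← hint, intervalIntegral.integral_of_le zero_le_one, ← Real.norm_eq_abs, ofReal_norm]
    refine (enorm_integral_le_lintegral_enorm _).trans ?_
    refine (lintegral_mono_set Set.Ioc_subset_Icc_self).trans (le_of_eq ?_)
    refine lintegral_congr fun s => ?_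
    rw [← Real.norm_eq_abs, ofReal_norm]
  refine h5.trans ?_
  unfold segLen
  rw [← mul_assoc, ← hu, ← ENNReal.ofReal_mul (by positivity),
    ← lintegral_const_mul' _ _ ENNReal.ofReal_ne_top]
  refine lintegral_mono fun s => ?_
  rw [← ENNReal.ofReal_mul (mul_nonneg (by positivity) (gauge_nonneg _))]
  exact ENNReal.ofReal_le_ofReal (hb s)

theorem poly_lower {A : Set (Pt d)} {R : ℝ} (hR : 0 < R)
    (hA : ∀ u : Pt d, ‖u‖ ≤ R * gauge A u)
    {α : ℝ} (h0 : 0 < α) (h1 : α < 1) {f₀ : Pt d → ℝ} {M : ℝ} (hM : 0 < M)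
    (hf : ∀ z ∈ Metric.sphere (0 : Pt d) 1, 0 < f₀ z ∧ f₀ z ≤ M) :
    ∀ (l : List (Pt d)) (z w : Pt d), l.head? = some z → l.getLast? = some w →
      ENNReal.ofReal |Phi w - Phi z| ≤ ENNReal.ofReal (2 * R * M) * polyLen A (wt α f₀) l
  | [], z, w, h, _ => by simp at h
  | [x], z, w, h, h' => by
    simp only [List.head?_cons, Option.some.injEq] at h
    simp only [List.getLast?_singleton, Option.some.injEq] at h'
    subst h; subst h'; simp
  | x :: y :: l, z, w, h, h' => by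
    simp only [List.head?_cons, Option.some.injEq] at h
    subst h
    have h2 := poly_lower hR hA h0 h1 hM hf (y :: l) y w rfl
      (by rw [List.getLast?_cons_cons] at h'; exact h')
    have h3 := seg_lower hR hA h0 h1 hM hf x y
    show _ ≤ ENNReal.ofReal (2 * R * M) * (segLen A (wt α f₀) x y + polyLen A (wt α f₀) (y :: l))
    rw [mul_add]
    calc ENNReal.ofReal |Phi w - Phi x|
        ≤ ENNReal.ofReal (|Phi y - Phi x| + |Phi w - Phi y|) := by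
          refine ENNReal.ofReal_le_ofReal ?_
          have := abs_add_le (Phi y - Phi x) (Phi w - Phi y)
          rwa [show Phi y - Phi x + (Phi w - Phi y) = Phi w - Phi x by ring] at this
      _ = ENNReal.ofReal |Phi y - Phi x| + ENNReal.ofReal |Phi w - Phi y| :=
          ENNReal.ofReal_add (abs_nonneg _) (abs_nonneg _)
      _ ≤ _ := add_le_add h3 h2

theorem D_pos {A : Set (Pt d)} {R : ℝ} (hR : 0 < R)
    (hA : ∀ u : Pt d, ‖u‖ ≤ R * gauge A u)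
    {α : ℝ} (h0 : 0 < α) (h1 : α < 1) {f₀ : Pt d → ℝ} {M : ℝ} (hM : 0 < M)
    (hf : ∀ z ∈ Metric.sphere (0 : Pt d) 1, 0 < f₀ z ∧ f₀ z ≤ M) {x : Pt d} (hx : x ≠ 0) :
    0 < D A (wt α f₀) 0 x := by
  have h2 : ENNReal.ofReal |Phi x - Phi (0 : Pt d)| ≤
      ENNReal.ofReal (2 * R * M) * D A (wt α f₀) 0 x := by
    unfold D
    rw [ENNReal.mul_iInf_of_ne (by simpa using mul_pos (mul_pos two_pos hR) hM)
      ENNReal.ofReal_ne_top]
    exact le_iInf fun l => poly_lower hR hA h0 h1 hM hf l.1 0 x l.2.1 l.2.2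
  have h3 : 0 < |Phi x - Phi (0 : Pt d)| := by
    have hn : 0 < ‖x‖ := norm_pos_iff.mpr hx
    have : Phi x - Phi (0 : Pt d) = ‖x‖ ^ 2 / (1 + ‖x‖ ^ 2) := by
      unfold Phi; simp
    rw [this]; positivity
  by_contra hneg
  have h4 : D A (wt α f₀) 0 x = 0 := by simpa using hneg
  rw [h4, mul_zero] at h2
  simp only [nonpos_iff_eq_zero, ENNReal.ofReal_eq_zero] at h2
  linarith

end Pool.Agent.Q293.WFPP
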