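import Mathlib

/-!
Weighted exponential first passage percolation on `ℤ^d`: the objects of MP_d9d0cb_pr.
-/

namespace Pool.Agent.Q293.WFPP

open MeasureTheory ProbabilityTheory Filter
open scoped ENNReal Pointwise

/-- points of `ℝ^d` with the Euclidean norm -/
abbrev Pt (d : ℕ) := EuclideanSpace ℝ (Fin d)

/-- sites of the lattice `ℤ^d` -/
abbrev Site (d : ℕ) := Fin d → ℤ

/-- nearest neighbours -/
def Adj {d : ℕ} (x y : Site d) : Prop := ∑ i, |x i - y i| = 1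

/-- midpoint of the segment `x y` -/
noncomputable def mid {d : ℕ} (x y : Site d) : Pt d :=
  WithLp.toLp 2 (fun i => ((x i : ℝ) + (y i : ℝ)) / 2)

/-- the law of i.i.d. exponential variables of rate one indexed by unordered pairs of sites
(only nearest neighbour pairs are ever used) -/
instance instProbExp : IsProbabilityMeasure (expMeasure (1 : ℝ)) :=
  isProbabilityMeasure_expMeasure one_pos

noncomputable def law (d : ℕ) : Measure (Sym2 (Site d) → ℝ) :=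
  Measure.infinitePi (fun _ => expMeasure 1)

/-- passage time of the lattice path with the successive sites `l`: the edge `{x, y}` has
passage time `Y {x, y} / f (midpoint)`, which is exponential with rate `f (midpoint)` -/
noncomputable def pathTime {d : ℕ} (f : Pt d → ℝ) (Y : Sym2 (Site d) → ℝ) :
    List (Site d) → ℝ
  | x :: y :: l => Y s(x, y) / f (mid x y) + pathTime f Y (y :: l)
  | _ => 0

/-- `l` lists the successive sites of a nearest neighbour path from `0` to `v` -/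
def IsLatticePath {d : ℕ} (v : Site d) (l : List (Site d)) : Prop :=
  l.IsChain Adj ∧ l.head? = some 0 ∧ l.getLast? = some v

/-- passage time `T(0, v)` -/
noncomputable def T {d : ℕ} (f : Pt d → ℝ) (Y : Sym2 (Site d) → ℝ) (v : Site d) : ℝ :=
  ⨅ l : {l : List (Site d) // IsLatticePath v l}, pathTime f Y l.1

/-- fattened cluster `A^F_t` -/
def AF {d : ℕ} (f : Pt d → ℝ) (Y : Sym2 (Site d) → ℝ) (t : ℝ) : Set (Pt d) :=
  {x | ∃ v : Site d, T f Y v ≤ t ∧ ∀ i, |x i - (v i : ℝ)| ≤ 1 / 2}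

/-- `A` is the limit shape of standard exponential first passage percolation on `ℤ^d` -/
structure IsLimitShape (d : ℕ) (A : Set (Pt d)) : Prop where
  compact : IsCompact A
  convex : Convex ℝ A
  symm : ∀ x ∈ A, -x ∈ A
  interior : (0 : Pt d) ∈ interior A
  limit : ∀ ε : ℝ, 0 < ε → ε < 1 →
    Tendsto (fun t : ℝ => law d {Y | ∀ s : ℝ, t ≤ s →
      (1 - ε) • A ⊆ s⁻¹ • AF (fun _ => 1) Y s ∧ s⁻¹ • AF (fun _ => 1) Y s ⊆ (1 + ε) • A})
      atTop (nhds 1)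

/-- the weight `f(z) = |z|^α f₀(z/|z|)` -/
noncomputable def wt {d : ℕ} (α : ℝ) (f₀ : Pt d → ℝ) (z : Pt d) : ℝ :=
  ‖z‖ ^ α * f₀ (‖z‖⁻¹ • z)

/-- `len^D` of the segment from `z` to `w`: it has `μ`-length `μ(w - z)`, `μ` the gauge of `A` -/
noncomputable def segLen {d : ℕ} (A : Set (Pt d)) (f : Pt d → ℝ) (z w : Pt d) : ℝ≥0∞ :=
  ENNReal.ofReal (gauge A (w - z)) *
    ∫⁻ s in Set.Icc (0 : ℝ) 1, ENNReal.ofReal ((f (z + s • (w - z)))⁻¹)

/-- `len^D` of the piecewise linear path with the successive vertices `l` -/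
noncomputable def polyLen {d : ℕ} (A : Set (Pt d)) (f : Pt d → ℝ) : List (Pt d) → ℝ≥0∞
  | z :: w :: l => segLen A f z w + polyLen A f (w :: l)
  | _ => 0

/-- the metric `D(z, w)` -/
noncomputable def D {d : ℕ} (A : Set (Pt d)) (f : Pt d → ℝ) (z w : Pt d) : ℝ≥0∞ :=
  ⨅ l : {l : List (Pt d) // l.head? = some z ∧ l.getLast? = some w}, polyLen A f l.1

/-- the set `𝔹` -/
def B {d : ℕ} (A : Set (Pt d)) (f : Pt d → ℝ) : Set (Pt d) := {z | D A f 0 z ≤ 1}

/-- the event `E(χ, t₀)` -/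
def E {d : ℕ} (A : Set (Pt d)) (α : ℝ) (f₀ : Pt d → ℝ) (χ t₀ : ℝ) :
    Set (Sym2 (Site d) → ℝ) :=
  {Y | ∀ t : ℝ, t₀ ≤ t →
    (1 - t ^ (-χ)) • t ^ (1 / (1 - α)) • B A (wt α f₀) ⊆ AF (wt α f₀) Y t ∧
    AF (wt α f₀) Y t ⊆ (1 + t ^ (-χ)) • t ^ (1 / (1 - α)) • B A (wt α f₀)}

/-- rate `χ` holds -/
def RateHolds {d : ℕ} (A : Set (Pt d)) (α : ℝ) (f₀ : Pt d → ℝ) (χ : ℝ) : Prop :=
  ∀ s : ℝ, 0 < s →
    Tendsto (fun t₀ : ℝ => t₀ ^ s * (1 - (law d (E A α f₀ χ t₀)).toReal)) atTop (nhds 0)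

/-- `f₀` is a positive Lipschitz function on the Euclidean unit sphere -/
def Admissible {d : ℕ} (f₀ : Pt d → ℝ) : Prop :=
  (∀ z ∈ Metric.sphere (0 : Pt d) 1, 0 < f₀ z) ∧
    ∃ K, LipschitzOnWith K f₀ (Metric.sphere (0 : Pt d) 1)

/-- the assertion of Q1 -/
def Q1 : Prop :=
  ∀ d : ℕ, 1 ≤ d → ∀ A : Set (Pt d), IsLimitShape d A → ∀ α : ℝ, α < 1 →
    ∀ f₀ : Pt d → ℝ, Admissible f₀ → ∀ χ : ℝ, 0 < χ → χ < 2 / (5 * (1 - α)) →
      RateHolds A α f₀ χ

end Pool.Agent.Q293.WFPP
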