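import Pool.Agent.Q293.WFPP.Path
import Pool.Agent.Q293.WFPP.DLow

namespace Pool.Agent.Q293.WFPP

open MeasureTheory ProbabilityTheory Filter
open scoped ENNReal Pointwise

variable {d : ℕ}

/-- a site as a point of the Euclidean space -/
noncomputable def toPt (v : Site d) : Pt d := WithLp.toLp 2 (fun i => (v i : ℝ))

/-- the site `n e_{i0}` -/
def ev (i0 : Fin d) (n : ℕ) : Site d := Pi.single i0 (n : ℤ)

theorem toPt_ev (i0 : Fin d) (n : ℕ) : toPt (ev i0 n) = (n : ℝ) • toPt (ev i0 1) := by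
  ext i
  by_cases h : i = i0
  · subst h; simp [toPt, ev]
  · simp [toPt, ev, h]

theorem toPt_ev_one_ne (i0 : Fin d) : toPt (ev i0 1) ≠ 0 := by
  intro h
  have h1 : (toPt (ev i0 1)) i0 = 0 := by rw [h]; rfl
  simp [toPt, ev] at h1

theorem gauge_bound {A : Set (Pt d)} (hA : IsLimitShape d A) :
    ∃ R : ℝ, 0 < R ∧ ∀ u : Pt d, ‖u‖ ≤ R * gauge A u := by
  obtain ⟨r, hr⟩ := hA.compact.isBounded.subset_closedBall (0 : Pt d)
  have hR : 0 < max r 1 := lt_max_of_lt_right one_pos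
  have hsub : A ⊆ Metric.closedBall 0 (max r 1) :=
    hr.trans (Metric.closedBall_subset_closedBall (le_max_left _ _))
  have habs : Absorbent ℝ A := absorbent_nhds_zero (mem_interior_iff_mem_nhds.mp hA.interior)
  refine ⟨max r 1, hR, fun u => ?_⟩
  have := le_gauge_of_subset_closedBall habs hR.le hsub (x := u)
  rwa [div_le_iff₀' hR] at this

theorem adm_bound {f₀ : Pt d → ℝ} (hf : Admissible f₀) :
    ∃ M : ℝ, 0 < M ∧ ∀ z ∈ Metric.sphere (0 : Pt d) 1, 0 < f₀ z ∧ f₀ z ≤ M := by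
  obtain ⟨h1, K, hK⟩ := hf
  obtain ⟨C, hC⟩ := (isCompact_sphere (0 : Pt d) 1).exists_bound_of_continuousOn hK.continuousOn
  refine ⟨max C 1, lt_max_of_lt_right one_pos, fun z hz => ⟨h1 z hz, ?_⟩⟩
  exact (le_abs_self _).trans ((hC z hz).trans (le_max_left _ _))

theorem wt_mid_pos {α : ℝ} {f₀ : Pt d → ℝ} (hf : Admissible f₀) (x y : Site d)
    (h : Adj x y) : 0 < wt α f₀ (mid x y) := by
  have hn : 0 < ‖mid x y‖ := norm_pos_iff.mpr (adj_mid_ne h)
  refine mul_pos (Real.rpow_pos_of_pos hn _) (hf.1 _ ?_)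
  rw [mem_sphere_zero_iff_norm, norm_smul, norm_inv, norm_norm, inv_mul_cancel₀ hn.ne']

theorem mem_AF_toPt {f : Pt d → ℝ} {Y : Sym2 (Site d) → ℝ} {t : ℝ} {v : Site d} :
    toPt v ∈ AF f Y t ↔ T f Y v ≤ t := by
  constructor
  · rintro ⟨w, hw, h⟩
    have : v = w := by
      funext i
      have h1 : |((v i : ℝ)) - (w i : ℝ)| ≤ 1 / 2 := h i
      have h2 : |((v i - w i : ℤ) : ℝ)| ≤ 1 / 2 := by push_cast; exact h1
      have h3 : |v i - w i| < 1 := by
        have : ((|v i - w i| : ℤ) : ℝ) < 1 := by rw [Int.cast_abs]; linarith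
        exact_mod_cast this
      rw [Int.abs_lt_one_iff] at h3
      linarith
    rw [this]; exact hw
  · intro h
    refine ⟨v, h, fun i => ?_⟩
    show |((v i : ℝ)) - (v i : ℝ)| ≤ 1 / 2
    rw [sub_self, abs_zero]; norm_num

theorem mem_smul_B {A : Set (Pt d)} {α : ℝ} {f₀ : Pt d → ℝ} {a : ℝ} (ha : 0 < a) (x : Pt d) :
    x ∈ a • B A (wt α f₀) ↔ D A (wt α f₀) 0 x ≤ ENNReal.ofReal (a ^ (1 - α)) := by
  rw [Set.mem_smul_set_iff_inv_smul_mem₀ ha.ne']
  show D A (wt α f₀) 0 (a⁻¹ • x) ≤ 1 ↔ _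
  rw [D_smul A α f₀ (inv_pos.mpr ha), Real.inv_rpow ha.le]
  have hp : 0 < a ^ (1 - α) := Real.rpow_pos_of_pos ha _
  rw [ENNReal.ofReal_inv_of_pos hp, ← ENNReal.div_eq_inv_mul,
    ENNReal.div_le_iff_le_mul (Or.inr ENNReal.one_ne_top) (Or.inr one_ne_zero), one_mul]

theorem scale_rpow {α : ℝ} (h1 : α < 1) {c t : ℝ} (hc : 0 ≤ c) (ht : 0 < t) :
    (c * t ^ (1 / (1 - α))) ^ (1 - α) = c ^ (1 - α) * t := by
  rw [Real.mul_rpow hc (Real.rpow_nonneg ht.le _), ← Real.rpow_mul ht.le,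
    one_div_mul_cancel (by linarith : (1 - α) ≠ 0), Real.rpow_one]

theorem event_upper {A : Set (Pt d)} {α : ℝ} (h1 : α < 1) {f₀ : Pt d → ℝ} {χ t₀ : ℝ}
    {Y : Sym2 (Site d) → ℝ} (hY : Y ∈ E A α f₀ χ t₀) {t : ℝ} (ht : t₀ ≤ t) (ht0 : 0 < t)
    {v : Site d} (hT : T (wt α f₀) Y v ≤ t) :
    D A (wt α f₀) 0 (toPt v) ≤ ENNReal.ofReal ((1 + t ^ (-χ)) ^ (1 - α) * t) := by
  have h2 := (hY t ht).2 (mem_AF_toPt.mpr hT)
  have hx : 0 < t ^ (-χ) := Real.rpow_pos_of_pos ht0 _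
  rw [smul_smul, mem_smul_B (mul_pos (by linarith) (Real.rpow_pos_of_pos ht0 _)),
    scale_rpow h1 (by linarith) ht0] at h2
  exact h2

theorem event_lower {A : Set (Pt d)} {α : ℝ} (h1 : α < 1) {f₀ : Pt d → ℝ} {χ t₀ : ℝ}
    (hχ : 0 < χ)
    {Y : Sym2 (Site d) → ℝ} (hY : Y ∈ E A α f₀ χ t₀) {t : ℝ} (ht : t₀ ≤ t) (ht0 : 1 < t)
    {v : Site d} (hT : t < T (wt α f₀) Y v) :
    ENNReal.ofReal ((1 - t ^ (-χ)) ^ (1 - α) * t) < D A (wt α f₀) 0 (toPt v) := by
  by_contra hneg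
  push Not at hneg
  have hx : t ^ (-χ) < 1 := Real.rpow_lt_one_of_one_lt_of_neg ht0 (by linarith)
  have h2 : toPt v ∈ (1 - t ^ (-χ)) • t ^ (1 / (1 - α)) • B A (wt α f₀) := by
    rw [smul_smul, mem_smul_B (mul_pos (by linarith) (Real.rpow_pos_of_pos (by linarith) _)),
      scale_rpow h1 (by linarith) (by linarith)]
    exact hneg
  have h3 := (hY t ht).1 h2
  rw [mem_AF_toPt] at h3
  linarith

theorem event_tendsto {A : Set (Pt d)} (hA : IsLimitShape d A) {α : ℝ} (h0 : 0 < α) (h1 : α < 1)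
    {f₀ : Pt d → ℝ} (hf : Admissible f₀) {χ t₀ : ℝ} (hχ : 1 < χ)
    {Y : Sym2 (Site d) → ℝ} (hY : Y ∈ E A α f₀ χ t₀) (i0 : Fin d) :
    Tendsto (fun n : ℕ => T (wt α f₀) Y (ev i0 n) - (D A (wt α f₀) 0 (toPt (ev i0 n))).toReal)
      atTop (nhds 0) := by
  set τ : ℕ → ℝ := fun n => T (wt α f₀) Y (ev i0 n) with hτ
  set δ : ℕ → ℝ≥0∞ := fun n => D A (wt α f₀) 0 (toPt (ev i0 n)) with hδ
  -- upper estimate
  have hup : ∀ n : ℕ, ∀ t : ℝ, t₀ ≤ t → 0 < t → τ n ≤ t →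
      δ n ≤ ENNReal.ofReal (t + t ^ (1 - χ)) := by
    intro n t ht ht0 hn
    refine (event_upper h1 hY ht ht0 hn).trans (ENNReal.ofReal_le_ofReal ?_)
    have hx : 0 < t ^ (-χ) := Real.rpow_pos_of_pos ht0 _
    have h2 : (1 + t ^ (-χ)) ^ (1 - α) ≤ 1 + t ^ (-χ) := by
      conv_rhs => rw [← Real.rpow_one (1 + t ^ (-χ))]
      exact Real.rpow_le_rpow_of_exponent_le (by linarith) (by linarith)
    calc (1 + t ^ (-χ)) ^ (1 - α) * t ≤ (1 + t ^ (-χ)) * t := by gcongr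
      _ = t + t ^ (1 - χ) := by
        rw [show 1 - χ = -χ + 1 by ring, Real.rpow_add ht0, Real.rpow_one]; ring
  have hfin : ∀ n, δ n ≠ ⊤ := by
    intro n
    refine ne_top_of_le_ne_top ENNReal.ofReal_ne_top
      (hup n (max (max t₀ 1) (τ n)) ?_ ?_ (le_max_right _ _))
    · exact (le_max_left t₀ 1).trans (le_max_left _ _)
    · exact lt_of_lt_of_le one_pos ((le_max_right t₀ 1).trans (le_max_left _ _))
  have hup' : ∀ n : ℕ, ∀ t : ℝ, t₀ ≤ t → 0 < t → τ n ≤ t → (δ n).toReal ≤ t + t ^ (1 - χ) := by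
    intro n t ht ht0 hn
    exact ENNReal.toReal_le_of_le_ofReal (by positivity) (hup n t ht ht0 hn)
  -- lower estimate
  have hlow : ∀ n : ℕ, ∀ t : ℝ, t₀ ≤ t → 1 < t → t < τ n → t - t ^ (1 - χ) ≤ (δ n).toReal := by
    intro n t ht ht0 hn
    have h2 := event_lower h1 (by linarith) hY ht ht0 hn
    have hx : t ^ (-χ) < 1 := Real.rpow_lt_one_of_one_lt_of_neg ht0 (by linarith)
    have hx0 : 0 < t ^ (-χ) := Real.rpow_pos_of_pos (by linarith) _
    have h3 : 1 - t ^ (-χ) ≤ (1 - t ^ (-χ)) ^ (1 - α) := by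
      conv_lhs => rw [← Real.rpow_one (1 - t ^ (-χ))]
      exact Real.rpow_le_rpow_of_exponent_ge (by linarith) (by linarith) (by linarith)
    have h4 : t - t ^ (1 - χ) ≤ (1 - t ^ (-χ)) ^ (1 - α) * t := by
      calc t - t ^ (1 - χ) = (1 - t ^ (-χ)) * t := by
            rw [show 1 - χ = -χ + 1 by ring, Real.rpow_add (by linarith), Real.rpow_one]; ring
        _ ≤ _ := by gcongr
    refine h4.trans ?_
    exact (ENNReal.ofReal_le_iff_le_toReal (hfin n)).mp h2.le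
  -- δ n tends to infinity
  obtain ⟨R, hR, hR'⟩ := gauge_bound hA
  obtain ⟨M, hM, hM'⟩ := adm_bound hf
  have hpos : 0 < δ 1 := D_pos hR hR' h0 h1 hM hM' (toPt_ev_one_ne i0)
  have hb1 : 0 < (δ 1).toReal := ENNReal.toReal_pos hpos.ne' (hfin 1)
  have hδn : ∀ n : ℕ, 0 < n → (δ n).toReal = (n : ℝ) ^ (1 - α) * (δ 1).toReal := by
    intro n hn
    have hn' : (0 : ℝ) < n := by exact_mod_cast hn
    have : δ n = ENNReal.ofReal ((n : ℝ) ^ (1 - α)) * δ 1 := by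
      rw [hδ]
      simp only
      rw [toPt_ev, D_smul A α f₀ hn']
    rw [this, ENNReal.toReal_mul, ENNReal.toReal_ofReal (Real.rpow_nonneg hn'.le _)]
  have hδinf : Tendsto (fun n : ℕ => (δ n).toReal) atTop atTop := by
    have h2 : Tendsto (fun n : ℕ => (n : ℝ) ^ (1 - α) * (δ 1).toReal) atTop atTop :=
      ((tendsto_rpow_atTop (by linarith : 0 < 1 - α)).comp
        tendsto_natCast_atTop_atTop).atTop_mul_const hb1
    refine h2.congr' ?_
    filter_upwards [eventually_gt_atTop 0] with n hn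
    exact (hδn n hn).symm
  -- passage times tend to infinity
  have hτinf : ∀ K : ℝ, t₀ ≤ K → 1 ≤ K → ∀ᶠ n in atTop, K < τ n := by
    intro K hK hK1
    filter_upwards [hδinf.eventually_gt_atTop (K + 1)] with n hn
    by_contra hneg
    push Not at hneg
    have h2 := hup' n K hK (by linarith) hneg
    have h3 : K ^ (1 - χ) ≤ 1 := Real.rpow_le_one_of_one_le_of_nonpos hK1 (by linarith)
    linarith
  -- conclusion
  rw [Metric.tendsto_atTop']
  intro ε hε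
  have hKex : ∀ᶠ K : ℝ in atTop, K ^ (1 - χ) < ε := by
    have h2 := tendsto_rpow_neg_atTop (by linarith : 0 < χ - 1)
    have h3 := h2.eventually_lt_const hε
    filter_upwards [h3] with K hK
    rwa [show 1 - χ = -(χ - 1) by ring]
  obtain ⟨K, hKε, hKt, hK1⟩ := (hKex.and ((eventually_ge_atTop t₀).and
    (eventually_gt_atTop (1 : ℝ)))).exists
  obtain ⟨N, hN⟩ := eventually_atTop.mp (hτinf K hKt hK1.le)
  refine ⟨N, fun n hn => ?_⟩
  have hn' := hN n hn.le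
  rw [Real.dist_eq, sub_zero]
  have hmono : ∀ t : ℝ, K ≤ t → t ^ (1 - χ) ≤ K ^ (1 - χ) := by
    intro t ht
    exact Real.rpow_le_rpow_of_nonpos (by linarith) ht (by linarith)
  have hA1 : (δ n).toReal ≤ τ n + K ^ (1 - χ) := by
    have h2 := hup' n (τ n) (by linarith) (by linarith) le_rfl
    have h3 := hmono (τ n) hn'.le
    linarith
  have hA2 : τ n - K ^ (1 - χ) ≤ (δ n).toReal := by
    refine le_of_forall_pos_le_add fun η hη => ?_
    have hlt : max K (τ n - η) < τ n := max_lt hn' (by linarith)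
    have h2 := hlow n (max K (τ n - η)) (hKt.trans (le_max_left _ _))
      (lt_of_lt_of_le hK1 (le_max_left _ _)) hlt
    have h3 := hmono (max K (τ n - η)) (le_max_left _ _)
    have h4 := le_max_right K (τ n - η)
    linarith
  show |τ n - (δ n).toReal| < ε
  rw [abs_lt]
  constructor <;> linarith

end Pool.Agent.Q293.WFPP
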