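import Pool.Agent.Q293.WFPP.Defs

namespace Pool.Agent.Q293.WFPP

open MeasureTheory ProbabilityTheory Filter
open scoped ENNReal

/-- resampling one coordinate preserves an infinite product measure -/
theorem map_update {ι : Type*} [DecidableEq ι] (ν : ι → Measure ℝ)
    [∀ i, IsProbabilityMeasure (ν i)] (e : ι) :
    ((ν e).prod (Measure.infinitePi ν)).map (fun p : ℝ × (ι → ℝ) => Function.update p.2 e p.1) =
      Measure.infinitePi ν := by
  have hmeas : Measurable (fun p : ℝ × (ι → ℝ) => Function.update p.2 e p.1) := by
    refine measurable_pi_lambda _ fun i => ?_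
    by_cases hi : i = e
    · subst hi; simpa using measurable_fst
    · simp only [Function.update_of_ne hi]
      exact (measurable_pi_apply i).comp measurable_snd
  have : IsProbabilityMeasure (((ν e).prod (Measure.infinitePi ν)).map
      (fun p : ℝ × (ι → ℝ) => Function.update p.2 e p.1)) :=
    Measure.isProbabilityMeasure_map hmeas.aemeasurable
  refine Measure.eq_infinitePi ν fun s t ht => ?_
  rw [Measure.map_apply hmeas (MeasurableSet.pi s.countable_toSet fun i _ => ht i)]
  by_cases he : e ∈ s
  · have hset : (fun p : ℝ × (ι → ℝ) => Function.update p.2 e p.1) ⁻¹' ((s : Set ι).pi t) =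
        (t e) ×ˢ (((s.erase e : Finset ι) : Set ι).pi t) := by
      ext p
      simp only [Set.mem_preimage, Set.mem_pi, Finset.mem_coe, Set.mem_prod, Finset.mem_erase]
      constructor
      · intro h
        refine ⟨by simpa using h e he, fun i hi => ?_⟩
        have := h i hi.2
        rwa [Function.update_of_ne hi.1] at this
      · rintro ⟨h1, h2⟩ i hi
        by_cases hie : i = e
        · subst hie; simpa using h1
        · rw [Function.update_of_ne hie]; exact h2 i ⟨hie, hi⟩
    rw [hset, Measure.prod_prod, Measure.infinitePi_pi _ (fun i _ => ht i),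
      Finset.mul_prod_erase s (fun i => ν i (t i)) he]
  · have hset : (fun p : ℝ × (ι → ℝ) => Function.update p.2 e p.1) ⁻¹' ((s : Set ι).pi t) =
        Set.univ ×ˢ ((s : Set ι).pi t) := by
      ext p
      simp only [Set.mem_preimage, Set.mem_pi, Finset.mem_coe, Set.mem_prod, Set.mem_univ, true_and]
      refine forall₂_congr fun i hi => ?_
      have : i ≠ e := fun h => he (h ▸ hi)
      rw [Function.update_of_ne this]
    rw [hset, Measure.prod_prod, Measure.infinitePi_pi _ (fun i _ => ht i), measure_univ, one_mul]

/-- a measurable set meeting every line in one coordinate direction at most once is null -/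
theorem fiber_null {ι : Type*} (ν : ι → Measure ℝ)
    [∀ i, IsProbabilityMeasure (ν i)] (e : ι) [NullSingletonClass (ν e)] (S : Set (ι → ℝ))
    (hS : MeasurableSet S)
    (huniq : ∀ Y ∈ S, ∀ Y' ∈ S, (∀ i, i ≠ e → Y i = Y' i) → Y e = Y' e) :
    Measure.infinitePi ν S = 0 := by
  classical
  have hmeas : Measurable (fun p : ℝ × (ι → ℝ) => Function.update p.2 e p.1) := by
    refine measurable_pi_lambda _ fun i => ?_
    by_cases hi : i = e
    · subst hi; simpa using measurable_fst
    · simp only [Function.update_of_ne hi]
      exact (measurable_pi_apply i).comp measurable_snd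
  rw [← map_update ν e, Measure.map_apply hmeas hS, Measure.prod_apply_symm (hmeas hS)]
  rw [lintegral_eq_zero_iff (measurable_measure_prodMk_right (hmeas hS))]
  refine Filter.Eventually.of_forall fun Y => ?_
  refine Set.Subsingleton.measure_zero ?_ _
  intro a ha b hb
  simp only [Set.mem_preimage] at ha hb
  have := huniq _ ha _ hb (fun i hi => by simp [Function.update_of_ne hi])
  simpa using this

end Pool.Agent.Q293.WFPP
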