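import Pool.Agent.Q293.WFPP.Event
import Pool.Agent.Q293.WFPP.Fiber

namespace Pool.Agent.Q293.WFPP

open MeasureTheory ProbabilityTheory Filter
open scoped ENNReal Pointwise

variable {d : ℕ}

theorem exp_neg_null : expMeasure (1 : ℝ) (Set.Iio 0) = 0 := by
  unfold expMeasure gammaMeasure
  rw [withDensity_apply _ measurableSet_Iio]
  exact lintegral_gammaPDF_of_nonpos le_rfl

instance expMeasure_nullSingleton : NullSingletonClass (expMeasure (1 : ℝ)) := by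
  unfold expMeasure gammaMeasure
  infer_instance

theorem law_neg_null (d : ℕ) : law d {Y | ∀ e, 0 ≤ Y e}ᶜ = 0 := by
  have h1 : {Y : Sym2 (Site d) → ℝ | ∀ e, 0 ≤ Y e}ᶜ ⊆
      ⋃ e : Sym2 (Site d), (fun Y : Sym2 (Site d) → ℝ => Y e) ⁻¹' (Set.Iio 0) := by
    intro Y hY
    simp only [Set.mem_compl_iff, Set.mem_ofPred_eq, not_forall, not_le] at hY
    obtain ⟨e, he⟩ := hY
    exact Set.mem_iUnion.mpr ⟨e, he⟩
  refine measure_mono_null h1 ?_
  rw [measure_iUnion_null_iff]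
  intro e
  have h2 : (law d) ((fun Y : Sym2 (Site d) → ℝ => Y e) ⁻¹' (Set.Iio 0)) =
      expMeasure 1 (Set.Iio 0) :=
    (measurePreserving_eval_infinitePi (fun _ : Sym2 (Site d) => expMeasure (1 : ℝ)) e).measure_preimage
      measurableSet_Iio.nullMeasurableSet
  rw [h2, exp_neg_null]

/-- near-optimal paths starting with the edge from `0` to `y` occur infinitely often -/
def Sy (f : Pt d → ℝ) (b : ℕ → ℝ) (i0 : Fin d) (y : Site d) : Set (Sym2 (Site d) → ℝ) :=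
  {Y | (∀ e, 0 ≤ Y e) ∧
    Tendsto (fun n : ℕ => T f Y (ev i0 n) - b n) atTop (nhds 0) ∧
    ∀ N : ℕ, ∃ n : ℕ, N ≤ n ∧ ∃ l : List (Site d), IsLatticePath (ev i0 n) (0 :: y :: l) ∧
      pathTime f Y (0 :: y :: l) ≤ T f Y (ev i0 n) + 1 / ((n : ℝ) + 1)}

theorem measurableSet_nonneg (d : ℕ) : MeasurableSet {Y : Sym2 (Site d) → ℝ | ∀ e, 0 ≤ Y e} := by
  have h : {Y : Sym2 (Site d) → ℝ | ∀ e, 0 ≤ Y e} = ⋂ e, {Y | 0 ≤ Y e} := by
    ext Y; simp
  rw [h]
  exact MeasurableSet.iInter fun e => measurableSet_le measurable_const (measurable_pi_apply e)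

theorem measurableSet_Sy (f : Pt d → ℝ) (b : ℕ → ℝ) (i0 : Fin d) (y : Site d) :
    MeasurableSet (Sy f b i0 y) := by
  refine (measurableSet_nonneg d).inter (MeasurableSet.inter ?_ ?_)
  · exact measurableSet_tendsto _ fun n => (measurable_T f _).sub_const _
  · have h : {Y : Sym2 (Site d) → ℝ | ∀ N : ℕ, ∃ n : ℕ, N ≤ n ∧ ∃ l : List (Site d),
        IsLatticePath (ev i0 n) (0 :: y :: l) ∧
        pathTime f Y (0 :: y :: l) ≤ T f Y (ev i0 n) + 1 / ((n : ℝ) + 1)} =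
        ⋂ N : ℕ, ⋃ n : ℕ, ⋃ _ : N ≤ n, ⋃ l : List (Site d),
          ⋃ _ : IsLatticePath (ev i0 n) (0 :: y :: l),
          {Y | pathTime f Y (0 :: y :: l) ≤ T f Y (ev i0 n) + 1 / ((n : ℝ) + 1)} := by
      ext Y
      simp only [Set.mem_ofPred_eq, Set.mem_iInter, Set.mem_iUnion, exists_prop]
    show MeasurableSet {Y : Sym2 (Site d) → ℝ | ∀ N : ℕ, ∃ n : ℕ, N ≤ n ∧ ∃ l : List (Site d),
        IsLatticePath (ev i0 n) (0 :: y :: l) ∧
        pathTime f Y (0 :: y :: l) ≤ T f Y (ev i0 n) + 1 / ((n : ℝ) + 1)}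
    rw [h]
    refine MeasurableSet.iInter fun N => MeasurableSet.iUnion fun n => MeasurableSet.iUnion fun _ =>
      MeasurableSet.iUnion fun l => MeasurableSet.iUnion fun _ => ?_
    exact measurableSet_le (measurable_pathTime f _) ((measurable_T f _).add_const _)

/-- shortening the first edge shortens infinitely many passage times -/
theorem Sy_aux {f : Pt d → ℝ} (hf : ∀ x y : Site d, Adj x y → 0 < f (mid x y)) (b : ℕ → ℝ)
    (i0 : Fin d) {y : Site d} (hy : Adj 0 y) {Y Y' : Sym2 (Site d) → ℝ}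
    (hY : Y ∈ Sy f b i0 y) (hY' : Y' ∈ Sy f b i0 y)
    (hag : ∀ e, e ≠ s((0 : Site d), y) → Y e = Y' e) : ¬ Y' s((0 : Site d), y) < Y s((0 : Site d), y) := by
  intro hlt
  set h : ℝ := Y s((0 : Site d), y) - Y' s((0 : Site d), y) with hh
  have hpos : 0 < h / f (mid 0 y) := div_pos (by linarith) (hf _ _ hy)
  have hmono : ∀ e, Y' e ≤ Y e := by
    intro e
    by_cases he : e = s((0 : Site d), y)
    · rw [he]; exact hlt.le
    · exact (hag e he).ge
  have hT : Tendsto (fun n : ℕ => T f Y (ev i0 n) - T f Y' (ev i0 n)) atTop (nhds 0) := by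
    have := hY.2.1.sub hY'.2.1
    rw [sub_zero] at this
    refine this.congr fun n => ?_
    ring
  have h1 : ∀ᶠ n : ℕ in atTop, T f Y (ev i0 n) - T f Y' (ev i0 n) < h / f (mid 0 y) / 2 :=
    hT.eventually_lt_const (by positivity)
  have h2 : ∀ᶠ n : ℕ in atTop, 1 / ((n : ℝ) + 1) < h / f (mid 0 y) / 2 :=
    tendsto_one_div_add_atTop_nhds_zero_nat.eventually_lt_const (by positivity)
  obtain ⟨N, hN⟩ := eventually_atTop.mp (h1.and h2)
  obtain ⟨n, hn, l, hl, hle⟩ := hY.2.2 N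
  obtain ⟨h3, h4⟩ := hN n hn
  have h5 := T_le hf hY'.1 hl
  have h6 := pathTime_shift hf hmono hl.1 (h := h) (by rw [hh]; linarith)
  linarith

theorem Sy_null {f : Pt d → ℝ} (hf : ∀ x y : Site d, Adj x y → 0 < f (mid x y)) (b : ℕ → ℝ)
    (i0 : Fin d) {y : Site d} (hy : Adj 0 y) : law d (Sy f b i0 y) = 0 := by
  refine fiber_null (fun _ => expMeasure 1) s((0 : Site d), y) _ (measurableSet_Sy f b i0 y) ?_
  intro Y hY Y' hY' hag
  have h1 := Sy_aux hf b i0 hy hY hY' hag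
  have h2 := Sy_aux hf b i0 hy hY' hY (fun e he => (hag e he).symm)
  linarith

theorem ev_ne_zero (i0 : Fin d) {n : ℕ} (hn : n ≠ 0) : ev i0 n ≠ 0 := by
  intro h
  have := congrFun h i0
  simp [ev] at this
  exact hn this

theorem S_subset {f : Pt d → ℝ} (b : ℕ → ℝ) (i0 : Fin d) :
    {Y : Sym2 (Site d) → ℝ | (∀ e, 0 ≤ Y e) ∧
      Tendsto (fun n : ℕ => T f Y (ev i0 n) - b n) atTop (nhds 0)} ⊆
    ⋃ y ∈ {y : Site d | Adj 0 y}, Sy f b i0 y := by
  rintro Y ⟨hY, hT⟩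
  have hnear : ∃ᶠ n : ℕ in atTop, ∃ y ∈ {y : Site d | Adj 0 y}, ∃ l : List (Site d),
      IsLatticePath (ev i0 n) (0 :: y :: l) ∧
        pathTime f Y (0 :: y :: l) ≤ T f Y (ev i0 n) + 1 / ((n : ℝ) + 1) := by
    refine Filter.Eventually.frequently ?_
    filter_upwards [eventually_gt_atTop 0] with n hn
    obtain ⟨l, hl, hle⟩ := exists_near (f := f) (Y := Y) (exists_path i0 n)
      (by positivity : (0 : ℝ) < 1 / ((n : ℝ) + 1))
    obtain ⟨y, l', rfl, hadj⟩ := path_start (ev_ne_zero i0 hn.ne') hl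
    exact ⟨y, hadj, l', hl, hle⟩
  rw [Filter.frequently_exists_finite finite_nbrs] at hnear
  obtain ⟨y, hy, hfr⟩ := hnear
  refine Set.mem_biUnion hy ⟨hY, hT, fun N => ?_⟩
  obtain ⟨n, hn, h⟩ := Filter.frequently_atTop.mp hfr N
  exact ⟨n, hn, h⟩

theorem S_null {f : Pt d → ℝ} (hf : ∀ x y : Site d, Adj x y → 0 < f (mid x y)) (b : ℕ → ℝ)
    (i0 : Fin d) : law d {Y : Sym2 (Site d) → ℝ | (∀ e, 0 ≤ Y e) ∧
      Tendsto (fun n : ℕ => T f Y (ev i0 n) - b n) atTop (nhds 0)} = 0 := by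
  refine measure_mono_null (S_subset b i0) ?_
  rw [measure_biUnion_null_iff finite_nbrs.countable]
  intro y hy
  exact Sy_null hf b i0 hy

end Pool.Agent.Q293.WFPP
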