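import Pool.Agent.Q293.WFPP.Defs

namespace Pool.Agent.Q293.WFPP

open MeasureTheory ProbabilityTheory Filter
open scoped ENNReal

variable {d : ℕ}

theorem adj_mid_ne {x y : Site d} (h : Adj x y) : mid x y ≠ 0 := by
  intro h0
  have hi : ∀ i, x i = - y i := by
    intro i
    have h1 : (mid x y) i = 0 := by rw [h0]; rfl
    have h2 : ((x i : ℝ) + (y i : ℝ)) / 2 = 0 := h1
    have h3 : (x i : ℝ) + (y i : ℝ) = 0 := by linarith
    have h4 : x i + y i = 0 := by exact_mod_cast h3
    linarith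
  unfold Adj at h
  have h5 : ∑ i, |x i - y i| = 2 * ∑ i, |y i| := by
    rw [Finset.mul_sum]
    refine Finset.sum_congr rfl fun i _ => ?_
    rw [hi i]
    have : - y i - y i = -(2 * y i) := by ring
    rw [this, abs_neg, abs_mul]; norm_num
  rw [h5] at h
  omega

theorem pathTime_nonneg {f : Pt d → ℝ} (hf : ∀ x y : Site d, Adj x y → 0 < f (mid x y))
    {Y : Sym2 (Site d) → ℝ} (hY : ∀ e, 0 ≤ Y e) :
    ∀ l : List (Site d), l.IsChain Adj → 0 ≤ pathTime f Y l
  | [], _ => le_rfl
  | [_], _ => le_rfl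
  | x :: y :: l, h => by
    rw [List.isChain_cons_cons] at h
    have h1 := pathTime_nonneg hf hY (y :: l) h.2
    have h2 : 0 ≤ Y s(x, y) / f (mid x y) := div_nonneg (hY _) (hf x y h.1).le
    show 0 ≤ Y s(x, y) / f (mid x y) + pathTime f Y (y :: l)
    linarith

theorem pathTime_mono {f : Pt d → ℝ} (hf : ∀ x y : Site d, Adj x y → 0 < f (mid x y))
    {Y Y' : Sym2 (Site d) → ℝ} (hY : ∀ e, Y' e ≤ Y e) :
    ∀ l : List (Site d), l.IsChain Adj → pathTime f Y' l ≤ pathTime f Y l
  | [], _ => le_rfl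
  | [_], _ => le_rfl
  | x :: y :: l, h => by
    rw [List.isChain_cons_cons] at h
    have h1 := pathTime_mono hf hY (y :: l) h.2
    have h2 : Y' s(x, y) / f (mid x y) ≤ Y s(x, y) / f (mid x y) :=
      div_le_div_of_nonneg_right (hY _) (hf x y h.1).le
    show Y' s(x, y) / f (mid x y) + pathTime f Y' (y :: l) ≤
      Y s(x, y) / f (mid x y) + pathTime f Y (y :: l)
    linarith

theorem pathTime_shift {f : Pt d → ℝ} (hf : ∀ x y : Site d, Adj x y → 0 < f (mid x y))
    {Y Y' : Sym2 (Site d) → ℝ} (hY : ∀ e, Y' e ≤ Y e) {x y : Site d} {l : List (Site d)}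
    (hl : (x :: y :: l).IsChain Adj) {h : ℝ} (hh : Y' s(x, y) ≤ Y s(x, y) - h) :
    pathTime f Y' (x :: y :: l) ≤ pathTime f Y (x :: y :: l) - h / f (mid x y) := by
  rw [List.isChain_cons_cons] at hl
  have h1 := pathTime_mono hf hY (y :: l) hl.2
  have h2 : Y' s(x, y) / f (mid x y) ≤ (Y s(x, y) - h) / f (mid x y) :=
    div_le_div_of_nonneg_right hh (hf x y hl.1).le
  rw [sub_div] at h2
  show Y' s(x, y) / f (mid x y) + pathTime f Y' (y :: l) ≤
      Y s(x, y) / f (mid x y) + pathTime f Y (y :: l) - h / f (mid x y)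
  linarith

theorem bddBelow_paths {f : Pt d → ℝ} (hf : ∀ x y : Site d, Adj x y → 0 < f (mid x y))
    {Y : Sym2 (Site d) → ℝ} (hY : ∀ e, 0 ≤ Y e) (v : Site d) :
    BddBelow (Set.range fun l : {l : List (Site d) // IsLatticePath v l} =>
      pathTime f Y l.1) := by
  refine ⟨0, ?_⟩
  rintro _ ⟨l, rfl⟩
  exact pathTime_nonneg hf hY l.1 l.2.1

theorem T_le {f : Pt d → ℝ} (hf : ∀ x y : Site d, Adj x y → 0 < f (mid x y))
    {Y : Sym2 (Site d) → ℝ} (hY : ∀ e, 0 ≤ Y e) {v : Site d} {l : List (Site d)}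
    (hl : IsLatticePath v l) : T f Y v ≤ pathTime f Y l :=
  ciInf_le (bddBelow_paths hf hY v) ⟨l, hl⟩

theorem T_nonneg {f : Pt d → ℝ} (hf : ∀ x y : Site d, Adj x y → 0 < f (mid x y))
    {Y : Sym2 (Site d) → ℝ} (hY : ∀ e, 0 ≤ Y e) (v : Site d) : 0 ≤ T f Y v :=
  Real.iInf_nonneg fun l => pathTime_nonneg hf hY l.1 l.2.1

theorem exists_near {f : Pt d → ℝ}
    {Y : Sym2 (Site d) → ℝ} {v : Site d}
    (hv : ∃ l, IsLatticePath v l) {ε : ℝ} (hε : 0 < ε) :
    ∃ l, IsLatticePath v l ∧ pathTime f Y l ≤ T f Y v + ε := by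
  obtain ⟨l0, hl0⟩ := hv
  have : Nonempty {l : List (Site d) // IsLatticePath v l} := ⟨⟨l0, hl0⟩⟩
  obtain ⟨l, hl⟩ := exists_lt_of_ciInf_lt
    (f := fun l : {l : List (Site d) // IsLatticePath v l} => pathTime f Y l.1)
    (a := T f Y v + ε) (by unfold T; linarith)
  exact ⟨l.1, l.2, hl.le⟩

/-- the straight path along a coordinate axis -/
theorem exists_path (i0 : Fin d) (n : ℕ) :
    ∃ l, IsLatticePath (Pi.single i0 (n : ℤ) : Site d) l := by
  refine ⟨(List.range (n + 1)).map (fun k : ℕ => (Pi.single i0 (k : ℤ) : Site d)), ?_, ?_, ?_⟩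
  · rw [List.isChain_map, List.isChain_range]
    intro m _
    unfold Adj
    rw [Finset.sum_eq_single i0]
    · simp
    · intro j _ hj
      simp [Pi.single_eq_of_ne hj]
    · intro h; exact absurd (Finset.mem_univ _) h
  · simp [List.head?_range]
  · simp [List.getLast?_range]

theorem path_start {v : Site d} (hv : v ≠ 0) {l : List (Site d)} (hl : IsLatticePath v l) :
    ∃ y l', l = 0 :: y :: l' ∧ Adj 0 y := by
  obtain ⟨h1, h2, h3⟩ := hl
  match l, h1, h2, h3 with
  | [], _, h2, _ => simp at h2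
  | [x], _, h2, h3 =>
    simp only [List.head?_cons, Option.some.injEq] at h2
    simp only [List.getLast?_singleton, Option.some.injEq] at h3
    exact absurd (h3.symm.trans h2) hv
  | x :: y :: l', h1, h2, _ =>
    simp only [List.head?_cons, Option.some.injEq] at h2
    subst h2
    rw [List.isChain_cons_cons] at h1
    exact ⟨y, l', rfl, h1.1⟩

theorem finite_nbrs : {y : Site d | Adj 0 y}.Finite := by
  refine Set.Finite.subset (Set.finite_Icc (fun _ => (-1 : ℤ) : Site d) (fun _ => 1)) ?_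
  intro y hy
  have hy' : ∑ i, |(0 : Site d) i - y i| = 1 := hy
  have h1 : ∀ i, |y i| ≤ 1 := by
    intro i
    have := Finset.single_le_sum (f := fun i => |(0 : Site d) i - y i|)
      (fun j _ => abs_nonneg _) (Finset.mem_univ i)
    simp only [Pi.zero_apply, zero_sub, abs_neg] at this hy'
    rw [hy'] at this
    exact this
  exact ⟨fun i => (abs_le.mp (h1 i)).1, fun i => (abs_le.mp (h1 i)).2⟩

theorem measurable_pathTime (f : Pt d → ℝ) : ∀ l : List (Site d),
    Measurable (fun Y : Sym2 (Site d) → ℝ => pathTime f Y l)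
  | [] => measurable_const
  | [_] => measurable_const
  | x :: y :: l => by
    have h1 := measurable_pathTime f (y :: l)
    show Measurable fun Y : Sym2 (Site d) → ℝ =>
      Y s(x, y) / f (mid x y) + pathTime f Y (y :: l)
    exact ((measurable_pi_apply _).div_const _).add h1

theorem measurable_T (f : Pt d → ℝ) (v : Site d) :
    Measurable (fun Y : Sym2 (Site d) → ℝ => T f Y v) :=
  Measurable.iInf fun l => measurable_pathTime f l.1

end Pool.Agent.Q293.WFPP
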