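import Pool.Agent.Q293.WFPP.Null

namespace Pool.Agent.Q293.WFPP

open MeasureTheory ProbabilityTheory Filter
open scoped ENNReal Pointwise

/-! ### mean of the exponential distribution -/

theorem exp_pdf_smul (x : ℝ) : (gammaPDF 1 1 x).toReal • x =
    (Set.Ioi (0 : ℝ)).indicator (fun x : ℝ => Real.exp (-x) * x ^ ((2 : ℝ) - 1)) x := by
  have h2 : ((2 : ℝ) - 1) = 1 := by norm_num
  rcases lt_trichotomy x 0 with hx | hx | hx
  · rw [gammaPDF_of_neg hx, Set.indicator_of_notMem (by simpa using hx.le)]; simp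
  · subst hx; simp
  · rw [Set.indicator_of_mem (by simpa using hx), gammaPDF, ENNReal.toReal_ofReal
      (gammaPDFReal_nonneg one_pos one_pos x), gammaPDFReal, if_pos hx.le, h2]
    simp

theorem measurable_pdf : Measurable (gammaPDF 1 1) :=
  (measurable_gammaPDFReal 1 1).ennreal_ofReal

theorem integrable_exp_id : Integrable (fun x : ℝ => x) (expMeasure 1) := by
  unfold expMeasure gammaMeasure
  rw [integrable_withDensity_iff_integrable_smul' measurable_pdf
    (ae_of_all _ fun x => ENNReal.ofReal_lt_top)]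
  have h : (fun x : ℝ => (gammaPDF 1 1 x).toReal • x) =
      (Set.Ioi (0 : ℝ)).indicator (fun x : ℝ => Real.exp (-x) * x ^ ((2 : ℝ) - 1)) := by
    funext x; exact exp_pdf_smul x
  rw [h, integrable_indicator_iff measurableSet_Ioi]
  exact Real.GammaIntegral_convergent two_pos

theorem integral_exp_id : ∫ x : ℝ, x ∂(expMeasure 1) = 1 := by
  unfold expMeasure gammaMeasure
  rw [integral_withDensity_eq_integral_toReal_smul measurable_pdf
    (ae_of_all _ fun x => ENNReal.ofReal_lt_top)]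
  have h : (fun x : ℝ => (gammaPDF 1 1 x).toReal • x) =
      (Set.Ioi (0 : ℝ)).indicator (fun x : ℝ => Real.exp (-x) * x ^ ((2 : ℝ) - 1)) := by
    funext x; exact exp_pdf_smul x
  rw [h, integral_indicator measurableSet_Ioi, ← Real.Gamma_eq_integral two_pos]
  simp

/-! ### the one-dimensional lattice -/

/-- the site `m` of `ℤ^1` -/
def W (m : ℤ) : Site 1 := fun _ => m

theorem W_eq (v : Site 1) : W (v 0) = v := by
  funext i; rw [Subsingleton.elim i 0]; rfl

theorem W_zero : W 0 = (0 : Site 1) := rfl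

theorem adj_W {x y : ℤ} : Adj (W x) (W y) ↔ |x - y| = 1 := by
  unfold Adj W; simp

/-- the `k`-th edge in the direction `σ` -/
def edge (σ : ℤ) (k : ℕ) : Sym2 (Site 1) := s(W (σ * k), W (σ * (k + 1)))

/-- cumulative sums in the direction `σ` -/
noncomputable def Sg (σ : ℤ) (Y : Sym2 (Site 1) → ℝ) (n : ℕ) : ℝ :=
  ∑ k ∈ Finset.range n, Y (edge σ k)

theorem Sg_succ (σ : ℤ) (Y : Sym2 (Site 1) → ℝ) (n : ℕ) :
    Sg σ Y (n + 1) = Sg σ Y n + Y (edge σ n) := Finset.sum_range_succ _ _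

theorem Sg_mono (σ : ℤ) {Y : Sym2 (Site 1) → ℝ} (hY : ∀ e, 0 ≤ Y e) : Monotone (Sg σ Y) :=
  monotone_nat_of_le_succ fun n => by rw [Sg_succ]; linarith [hY (edge σ n)]

/-- the potential -/
noncomputable def pot (σ : ℤ) (Y : Sym2 (Site 1) → ℝ) (m : ℤ) : ℝ := Sg σ Y (σ * m).toNat

theorem pot_step {σ : ℤ} (hσ : σ = 1 ∨ σ = -1) {Y : Sym2 (Site 1) → ℝ} (hY : ∀ e, 0 ≤ Y e)
    {x y : ℤ} (h : |x - y| = 1) : pot σ Y y ≤ pot σ Y x + Y s(W x, W y) := by
  have hσ2 : σ * σ = 1 := by rcases hσ with rfl | rfl <;> norm_num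
  by_cases hxy : σ * y = σ * x + 1
  · by_cases hx : 0 ≤ σ * x
    · have h1 : (σ * y).toNat = (σ * x).toNat + 1 := by omega
      have h2 : edge σ (σ * x).toNat = s(W x, W y) := by
        unfold edge
        have h3 : (((σ * x).toNat : ℕ) : ℤ) = σ * x := Int.toNat_of_nonneg hx
        rw [h3]
        have h4 : σ * (σ * x) = x := by rw [← mul_assoc, hσ2, one_mul]
        have h5 : σ * (σ * x + 1) = y := by rw [← hxy, ← mul_assoc, hσ2, one_mul]
        rw [h4, h5]
      unfold pot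
      rw [h1, Sg_succ, h2]
    · have h1 : (σ * y).toNat = 0 := by omega
      have h2 : (σ * x).toNat = 0 := by omega
      unfold pot
      rw [h1, h2]
      linarith [hY s(W x, W y)]
  · have h1 : σ * y ≤ σ * x := by
      rcases hσ with rfl | rfl <;> rcases abs_eq (zero_le_one' ℤ) |>.mp h with h' | h' <;> omega
    have h2 : (σ * y).toNat ≤ (σ * x).toNat := Int.toNat_le_toNat h1
    have h3 := Sg_mono σ hY h2
    unfold pot
    linarith [hY s(W x, W y)]

theorem pathTime_ge_pot {σ : ℤ} (hσ : σ = 1 ∨ σ = -1) {Y : Sym2 (Site 1) → ℝ}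
    (hY : ∀ e, 0 ≤ Y e) : ∀ (l : List (Site 1)) (x z : Site 1), l.IsChain Adj →
      l.head? = some x → l.getLast? = some z →
      pot σ Y (z 0) ≤ pot σ Y (x 0) + pathTime (fun _ => 1) Y l
  | [], x, z, _, h, _ => by simp at h
  | [a], x, z, _, h, h' => by
    simp only [List.head?_cons, Option.some.injEq] at h
    simp only [List.getLast?_singleton, Option.some.injEq] at h'
    subst h; subst h'; simp [pathTime]
  | a :: b :: l, x, z, hc, h, h' => by
    simp only [List.head?_cons, Option.some.injEq] at h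
    subst h
    rw [List.isChain_cons_cons] at hc
    have h2 := pathTime_ge_pot hσ hY (b :: l) b z hc.2 rfl
      (by rw [List.getLast?_cons_cons] at h'; exact h')
    have h3 : pot σ Y (b 0) ≤ pot σ Y (a 0) + Y s(a, b) := by
      have h4 := pot_step hσ hY (x := a 0) (y := b 0) (by
        have := hc.1
        rw [← W_eq a, ← W_eq b, adj_W] at this
        exact this)
      rwa [W_eq, W_eq] at h4
    show _ ≤ pot σ Y (a 0) + (Y s(a, b) / 1 + pathTime (fun _ => 1) Y (b :: l))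
    rw [div_one]
    linarith

/-- straight path from `a` in the direction `σ` -/
def Ls (σ : ℤ) (a : ℤ) : ℕ → List (Site 1)
  | 0 => [W a]
  | n + 1 => W a :: Ls σ (a + σ) n

theorem Ls_head (σ a : ℤ) (n : ℕ) : ∃ l, Ls σ a n = W a :: l := by
  cases n <;> exact ⟨_, rfl⟩

theorem Ls_last (σ : ℤ) : ∀ (n : ℕ) (a : ℤ), (Ls σ a n).getLast? = some (W (a + σ * n))
  | 0, a => by simp [Ls]
  | n + 1, a => by
    obtain ⟨l, hl⟩ := Ls_head σ (a + σ) n
    have := Ls_last σ n (a + σ)
    rw [hl] at this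
    show (W a :: Ls σ (a + σ) n).getLast? = _
    rw [hl, List.getLast?_cons_cons, this]
    congr 2
    push_cast; ring

theorem Ls_chain {σ : ℤ} (hσ : σ = 1 ∨ σ = -1) : ∀ (n : ℕ) (a : ℤ), (Ls σ a n).IsChain Adj
  | 0, a => List.isChain_singleton _
  | n + 1, a => by
    obtain ⟨l, hl⟩ := Ls_head σ (a + σ) n
    have := Ls_chain hσ n (a + σ)
    show (W a :: Ls σ (a + σ) n).IsChain Adj
    rw [hl] at this ⊢
    rw [List.isChain_cons_cons]
    refine ⟨?_, this⟩
    rw [adj_W]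
    rcases hσ with rfl | rfl <;> simp

theorem Ls_time (σ : ℤ) (Y : Sym2 (Site 1) → ℝ) : ∀ (n : ℕ) (a : ℤ),
    pathTime (fun _ => 1) Y (Ls σ a n) =
      ∑ k ∈ Finset.range n, Y s(W (a + σ * k), W (a + σ * (k + 1)))
  | 0, a => by simp [Ls, pathTime]
  | n + 1, a => by
    obtain ⟨l, hl⟩ := Ls_head σ (a + σ) n
    have h := Ls_time σ Y n (a + σ)
    have h1 : pathTime (fun _ => 1) Y (Ls σ a (n + 1)) =
        Y s(W a, W (a + σ)) / 1 + pathTime (fun _ => 1) Y (Ls σ (a + σ) n) := by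
      show pathTime (fun _ => 1) Y (W a :: Ls σ (a + σ) n) = _
      rw [hl]; rfl
    rw [h1, h, Finset.sum_range_succ', div_one, add_comm]
    congr 1
    · refine Finset.sum_congr rfl fun k _ => ?_
      push_cast
      rw [show a + σ + σ * (k : ℤ) = a + σ * ((k : ℤ) + 1) by ring,
        show a + σ + σ * ((k : ℤ) + 1) = a + σ * ((k : ℤ) + 1 + 1) by ring]
    · simp

theorem T_W {σ : ℤ} (hσ : σ = 1 ∨ σ = -1) {Y : Sym2 (Site 1) → ℝ} (hY : ∀ e, 0 ≤ Y e) (n : ℕ) :
    T (fun _ => 1) Y (W (σ * n)) = Sg σ Y n := by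
  have hpath : IsLatticePath (W (σ * n)) (Ls σ 0 n) := by
    refine ⟨Ls_chain hσ n 0, ?_, ?_⟩
    · obtain ⟨l, hl⟩ := Ls_head σ 0 n
      rw [hl]; rfl
    · rw [Ls_last, zero_add]
  refine le_antisymm ?_ ?_
  · refine (T_le (fun _ _ _ => one_pos) hY hpath).trans (le_of_eq ?_)
    rw [Ls_time]
    unfold Sg edge
    simp
  · have : Nonempty {l : List (Site 1) // IsLatticePath (W (σ * n)) l} := ⟨⟨_, hpath⟩⟩
    refine le_ciInf fun l => ?_
    have h := pathTime_ge_pot hσ hY l.1 0 (W (σ * n)) l.2.1 l.2.2.1 l.2.2.2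
    have hσ2 : σ * σ = 1 := by rcases hσ with rfl | rfl <;> norm_num
    have h1 : pot σ Y ((W (σ * n)) 0) = Sg σ Y n := by
      unfold pot W
      rw [← mul_assoc, hσ2, one_mul, Int.toNat_natCast]
    have h2 : pot σ Y ((0 : Site 1) 0) = 0 := by
      unfold pot; simp [Sg]
    rw [h1, h2, zero_add] at h
    exact h

end Pool.Agent.Q293.WFPP
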