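import Pool.Agent.Q293.WFPP.Shape1

namespace Pool.Agent.Q293.WFPP

open MeasureTheory ProbabilityTheory Filter
open scoped ENNReal Pointwise

theorem edge_injective {σ : ℤ} (hσ : σ = 1 ∨ σ = -1) : Function.Injective (edge σ) := by
  intro k k' h
  unfold edge at h
  rw [Sym2.eq_iff] at h
  have key : ∀ a b : ℤ, W a = W b → a = b := fun a b h => congrFun h 0
  rcases h with ⟨h1, h2⟩ | ⟨h1, h2⟩
  · have := key _ _ h1
    rcases hσ with rfl | rfl <;> omega
  · have h3 := key _ _ h1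
    have h4 := key _ _ h2
    rcases hσ with rfl | rfl <;> omega

/-- strong law of large numbers along one direction -/
theorem slln {σ : ℤ} (hσ : σ = 1 ∨ σ = -1) :
    ∀ᵐ Y ∂(law 1), Tendsto (fun n : ℕ => Sg σ Y n / n) atTop (nhds 1) := by
  have hmp : ∀ e : Sym2 (Site 1), MeasurePreserving (fun Y : Sym2 (Site 1) → ℝ => Y e) (law 1)
      (expMeasure 1) := fun e =>
    measurePreserving_eval_infinitePi (fun _ : Sym2 (Site 1) => expMeasure (1 : ℝ)) e
  have hind : iIndepFun (fun (e : Sym2 (Site 1)) (Y : Sym2 (Site 1) → ℝ) => Y e) (law 1) :=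
    iIndepFun_infinitePi (P := fun _ : Sym2 (Site 1) => expMeasure (1 : ℝ))
      (X := fun _ x => x) (fun _ => measurable_id)
  have hind' := hind.precomp (edge_injective hσ)
  have hint : Integrable (fun Y : Sym2 (Site 1) → ℝ => Y (edge σ 0)) (law 1) :=
    (hmp (edge σ 0)).integrable_comp_of_integrable integrable_exp_id
  have hmean : ∫ Y : Sym2 (Site 1) → ℝ, Y (edge σ 0) ∂(law 1) = 1 := by
    rw [← integral_exp_id, ← (hmp (edge σ 0)).map_eq]
    have h1 : AEMeasurable (fun Y : Sym2 (Site 1) → ℝ => Y (edge σ 0)) (law 1) :=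
      (hmp (edge σ 0)).measurable.aemeasurable
    have h2 : AEStronglyMeasurable (fun x : ℝ => x)
        (Measure.map (fun Y : Sym2 (Site 1) → ℝ => Y (edge σ 0)) (law 1)) :=
      measurable_id.aestronglyMeasurable
    exact (integral_map h1 h2).symm
  have h := strong_law_ae_real (μ := law 1)
    (fun (k : ℕ) (Y : Sym2 (Site 1) → ℝ) => Y (edge σ k)) hint
    (fun i j hij => hind'.indepFun hij)
    (fun i => ⟨(measurable_pi_apply _).aemeasurable, (measurable_pi_apply _).aemeasurable, by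
      rw [(hmp (edge σ i)).map_eq, (hmp (edge σ 0)).map_eq]⟩)
  rw [hmean] at h
  exact h

theorem norm_pt1 (x : Pt 1) : ‖x‖ = |x 0| := by
  rw [EuclideanSpace.norm_eq]
  simp [Real.sqrt_sq_eq_abs]

/-- every integer is a sign times a natural number -/
theorem int_sign (m : ℤ) : ∃ σ : ℤ, (σ = 1 ∨ σ = -1) ∧ m = σ * (m.natAbs : ℤ) := by
  rcases le_total 0 m with h | h
  · exact ⟨1, Or.inl rfl, by omega⟩
  · exact ⟨-1, Or.inr rfl, by omega⟩

theorem shape_det {Y : Sym2 (Site 1) → ℝ} (hY : ∀ e, 0 ≤ Y e)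
    (hlim : ∀ σ : ℤ, (σ = 1 ∨ σ = -1) → Tendsto (fun n : ℕ => Sg σ Y n / n) atTop (nhds 1))
    {ε : ℝ} (hε : 0 < ε) (hε1 : ε < 1) :
    ∃ t : ℝ, ∀ s : ℝ, t ≤ s →
      (1 - ε) • Metric.closedBall (0 : Pt 1) 1 ⊆ s⁻¹ • AF (fun _ => 1) Y s ∧
        s⁻¹ • AF (fun _ => 1) Y s ⊆ (1 + ε) • Metric.closedBall (0 : Pt 1) 1 := by
  have hev : ∀ σ : ℤ, (σ = 1 ∨ σ = -1) → ∃ N : ℕ, ∀ n : ℕ, N ≤ n →
      (1 - ε / 4) * n ≤ Sg σ Y n ∧ Sg σ Y n ≤ (1 + ε / 2) * n := by
    intro σ hσ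
    have h1 := (hlim σ hσ).eventually_const_lt (show (1 - ε / 4 : ℝ) < 1 by linarith)
    have h2 := (hlim σ hσ).eventually_lt_const (show (1 : ℝ) < 1 + ε / 2 by linarith)
    obtain ⟨N, hN⟩ := eventually_atTop.mp ((h1.and h2).and (eventually_gt_atTop 0))
    refine ⟨N, fun n hn => ?_⟩
    obtain ⟨⟨h3, h4⟩, h5⟩ := hN n hn
    have h5' : (0 : ℝ) < n := by exact_mod_cast h5
    rw [lt_div_iff₀ h5'] at h3
    rw [div_lt_iff₀ h5'] at h4
    exact ⟨h3.le, h4.le⟩
  obtain ⟨N1, hN1⟩ := hev 1 (Or.inl rfl)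
  obtain ⟨N2, hN2⟩ := hev (-1) (Or.inr rfl)
  set N := max N1 N2 with hN
  have hall : ∀ σ : ℤ, (σ = 1 ∨ σ = -1) → ∀ n : ℕ, N ≤ n →
      (1 - ε / 4) * n ≤ Sg σ Y n ∧ Sg σ Y n ≤ (1 + ε / 2) * n := by
    rintro σ (rfl | rfl) n hn
    · exact hN1 n ((le_max_left _ _).trans hn)
    · exact hN2 n ((le_max_right _ _).trans hn)
  refine ⟨max (1 / ε) ((N + 1) / (1 - ε / 2)), fun s hs => ?_⟩
  have hs1 : 1 / ε ≤ s := (le_max_left _ _).trans hs
  have hs2 : ((N : ℝ) + 1) / (1 - ε / 2) ≤ s := (le_max_right _ _).trans hs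
  have hs0 : 0 < s := lt_of_lt_of_le (by positivity) hs1
  have hs3 : 1 ≤ s * ε := by rwa [div_le_iff₀ hε] at hs1
  have hs4 : (N : ℝ) + 1 ≤ s * (1 - ε / 2) := by rwa [div_le_iff₀ (by linarith)] at hs2
  constructor
  · rintro _ ⟨z, hz, rfl⟩
    rw [mem_closedBall_zero_iff, norm_pt1] at hz
    show (1 - ε) • z ∈ s⁻¹ • AF (fun _ => 1) Y s
    rw [Set.mem_inv_smul_set_iff₀ hs0.ne']
    set q : ℝ := s * ((1 - ε) * z 0) with hq
    have hqabs : |q| ≤ s * (1 - ε) := by
      rw [hq, abs_mul, abs_mul, abs_of_pos hs0, abs_of_pos (by linarith : 0 < 1 - ε)]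
      have : (1 - ε) * |z 0| ≤ (1 - ε) * 1 := by
        apply mul_le_mul_of_nonneg_left hz (by linarith)
      nlinarith
    obtain ⟨σ, hσ, hm⟩ := int_sign (round q)
    have hr : |q - round q| ≤ 1 / 2 := abs_sub_round q
    set n := (round q).natAbs with hn
    have hnle : (n : ℝ) ≤ s * (1 - ε / 2) := by
      have h1 : (n : ℝ) = |((round q : ℤ) : ℝ)| := by
        rw [hn, Nat.cast_natAbs, Int.cast_abs]
      rw [h1]
      have h2 : |((round q : ℤ) : ℝ)| ≤ |q| + 1 / 2 := by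
        have := abs_sub_abs_le_abs_sub ((round q : ℤ) : ℝ) q
        rw [abs_sub_comm] at this
        linarith
      nlinarith
    set n' := ⌊s * (1 - ε / 2)⌋₊ with hn'
    have hnn' : n ≤ n' := Nat.le_floor hnle
    have hn'le : (n' : ℝ) ≤ s * (1 - ε / 2) := Nat.floor_le (by nlinarith)
    have hNn' : N ≤ n' := by
      refine Nat.le_floor ?_
      linarith
    refine ⟨W (round q), ?_, ?_⟩
    · rw [hm, T_W hσ hY n]
      refine (Sg_mono σ hY hnn').trans ?_
      refine (hall σ hσ n' hNn').2.trans ?_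
      calc (1 + ε / 2) * (n' : ℝ) ≤ (1 + ε / 2) * (s * (1 - ε / 2)) := by gcongr
        _ = s * (1 - ε ^ 2 / 4) := by ring
        _ ≤ s := by nlinarith [sq_nonneg ε]
    · intro i
      rw [Subsingleton.elim i 0]
      show |s * ((1 - ε) * z 0) - ((round q : ℤ) : ℝ)| ≤ 1 / 2
      exact hr
  · intro x hx
    rw [Set.mem_inv_smul_set_iff₀ hs0.ne'] at hx
    obtain ⟨v, hv, hvx⟩ := hx
    rw [Set.mem_smul_set_iff_inv_smul_mem₀ (by linarith : (1 + ε) ≠ 0), mem_closedBall_zero_iff,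
      norm_smul, norm_inv, Real.norm_of_nonneg (by linarith : 0 ≤ 1 + ε),
      inv_mul_le_iff₀ (by linarith), mul_one, norm_pt1]
    have hv0 : |s * x 0 - (v 0 : ℝ)| ≤ 1 / 2 := hvx 0
    obtain ⟨σ, hσ, hm⟩ := int_sign (v 0)
    set n := (v 0).natAbs with hn
    have hT : T (fun _ => 1) Y v = Sg σ Y n := by
      rw [← W_eq v, hm]
      exact T_W hσ hY n
    rw [hT] at hv
    have hnabs : (n : ℝ) = |((v 0 : ℤ) : ℝ)| := by
      rw [hn, Nat.cast_natAbs, Int.cast_abs]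
    have hnle : (n : ℝ) ≤ (1 + ε / 2) * s := by
      by_contra hneg
      push Not at hneg
      have h1 : N ≤ n := by
        have : (N : ℝ) ≤ n := by nlinarith
        exact_mod_cast this
      have h2 := (hall σ hσ n h1).1
      have h3 : (1 - ε / 4) * ((1 + ε / 2) * s) < (1 - ε / 4) * n :=
        mul_lt_mul_of_pos_left hneg (by linarith)
      have h4 : s ≤ (1 - ε / 4) * ((1 + ε / 2) * s) := by
        have : (1 - ε / 4) * ((1 + ε / 2) * s) - s = s * (ε * (2 - ε) / 8) := by ring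
        have h5 : 0 ≤ s * (ε * (2 - ε) / 8) := by
          apply mul_nonneg hs0.le
          apply div_nonneg (mul_nonneg hε.le (by linarith)) (by norm_num)
        linarith
      linarith
    have h1 : |s * x 0| ≤ n + 1 / 2 := by
      have := abs_sub_abs_le_abs_sub (s * x 0) ((v 0 : ℤ) : ℝ)
      rw [hnabs]; linarith
    rw [abs_mul, abs_of_pos hs0] at h1
    have h2 : s * |x 0| ≤ s * (1 + ε) := by nlinarith
    exact le_of_mul_le_mul_left h2 hs0

/-- the limit shape in dimension one is the interval `[-1, 1]` -/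
theorem isLimitShape_one : IsLimitShape 1 (Metric.closedBall (0 : Pt 1) 1) where
  compact := isCompact_closedBall _ _
  convex := convex_closedBall _ _
  symm := by
    intro x hx
    rw [mem_closedBall_zero_iff] at hx ⊢
    rwa [norm_neg]
  interior := Metric.ball_subset_interior_closedBall (Metric.mem_ball_self one_pos)
  limit := by
    intro ε hε hε1
    set G : ℝ → Set (Sym2 (Site 1) → ℝ) := fun t => {Y | ∀ s : ℝ, t ≤ s →
      (1 - ε) • Metric.closedBall (0 : Pt 1) 1 ⊆ s⁻¹ • AF (fun _ => 1) Y s ∧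
        s⁻¹ • AF (fun _ => 1) Y s ⊆ (1 + ε) • Metric.closedBall (0 : Pt 1) 1} with hG
    have hmono : Monotone G := by
      intro t t' htt' Y hY s hs
      exact hY s (htt'.trans hs)
    have h1 := tendsto_measure_iUnion_atTop (μ := law 1) hmono
    have h2 : law 1 (⋃ t, G t) = 1 := by
      have hae : ∀ᵐ Y ∂(law 1), Y ∈ ⋃ t, G t := by
        have hneg : ∀ᵐ Y ∂(law 1), ∀ e, 0 ≤ Y e := law_neg_null 1
        filter_upwards [hneg, slln (Or.inl rfl : (1 : ℤ) = 1 ∨ (1 : ℤ) = -1),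
          slln (Or.inr rfl : (-1 : ℤ) = 1 ∨ (-1 : ℤ) = -1)] with Y hY hp hm
        obtain ⟨t, ht⟩ := shape_det hY (by
          rintro σ (rfl | rfl)
          · exact hp
          · exact hm) hε hε1
        exact Set.mem_iUnion.mpr ⟨t, ht⟩
      have : IsProbabilityMeasure (law 1) := by unfold law; infer_instance
      have hcompl : law 1 (⋃ t, G t)ᶜ = 0 := hae
      refine le_antisymm prob_le_one ?_
      calc (1 : ℝ≥0∞) = law 1 Set.univ := measure_univ.symm
        _ ≤ law 1 ((⋃ t, G t) ∪ (⋃ t, G t)ᶜ) := by rw [Set.union_compl_self]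
        _ ≤ law 1 (⋃ t, G t) + law 1 (⋃ t, G t)ᶜ := measure_union_le _ _
        _ = law 1 (⋃ t, G t) := by rw [hcompl, add_zero]
    rw [h2] at h1
    exact h1

end Pool.Agent.Q293.WFPP
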